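import Mathlib

/-!
# A linear Cauchy-Davenport inequality

`A`, `B` are nonzero subspaces of finite dimension of a field `L` over `K`. If all subspaces of `A` whose
ratios are all algebraic over `K` have dimension at most `h`, then
`dim A + dim B ≤ dim (A * B) + h`.
-/

set_option autoImplicit false

open Module

namespace T2H06.ZS

variable {K L : Type*} [Field K] [Field L] [Algebra K L]

/-- all ratios of elements of `A` are algebraic over `K` -/
def AlgRatios (K : Type*) {L : Type*} [Field K] [Field L] [Algebra K L] (A : Submodule K L) : Prop :=
  ∀ a ∈ A, ∀ b ∈ A, IsAlgebraic K (a / b)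

theorem finrank_map_mulLeft {e : L} (he : e ≠ 0) (B : Submodule K L) :
    finrank K (B.map (LinearMap.mulLeft K e)) = finrank K B :=
  (LinearEquiv.finrank_eq (Submodule.equivMapOfInjective _ (mul_right_injective₀ he) B)).symm

theorem mem_map_mulLeft {e x : L} (he : e ≠ 0) (B : Submodule K L) :
    x ∈ B.map (LinearMap.mulLeft K e) ↔ e⁻¹ * x ∈ B := by
  rw [Submodule.mem_map]
  constructor
  · rintro ⟨b, hb, rfl⟩
    simpa [he] using hb
  · intro h
    exact ⟨e⁻¹ * x, h, by simp [he]⟩

theorem cauchy (h : ℕ) : ∀ (n : ℕ) (A B : Submodule K L), FiniteDimensional K A →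
    FiniteDimensional K B → finrank K A = n → A ≠ ⊥ → B ≠ ⊥ →
    (∀ A' ≤ A, AlgRatios K A' → finrank K A' ≤ h) →
    finrank K A + finrank K B ≤ finrank K (A * B : Submodule K L) + h := by
  intro n
  induction n using Nat.strong_induction_on with
  | _ n ih =>
    intro A B hA hB hn hA0 hB0 hh
    have hAB : FiniteDimensional K (A * B : Submodule K L) := by
      rw [← Submodule.fg_iff_finiteDimensional] at hA hB ⊢
      exact hA.mul hB
    by_cases hex : ∃ e : L, e ≠ 0 ∧ A ⊓ B.map (LinearMap.mulLeft K e) ≠ ⊥ ∧
        A ⊓ B.map (LinearMap.mulLeft K e) ≠ A
    · obtain ⟨e, he, h1, h2⟩ := hex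
      set C := B.map (LinearMap.mulLeft K e) with hC
      have hCf : FiniteDimensional K C := by
        rw [hC]; infer_instance
      set A' := A ⊓ C with hA'
      set B' := B ⊔ A.map (LinearMap.mulLeft K e⁻¹) with hB'
      have hA'f : FiniteDimensional K A' := Submodule.finiteDimensional_of_le inf_le_left
      have hB'f : FiniteDimensional K B' := by
        rw [hB']; infer_instance
      have hlt : finrank K A' < n := by
        rw [← hn]
        exact Submodule.finrank_lt_finrank_of_lt (lt_of_le_of_ne inf_le_left h2)
      have hB'0 : B' ≠ ⊥ := fun h0 => hB0 (eq_bot_iff.2 (le_sup_left.trans h0.le))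
      have h3 := ih _ hlt A' B' hA'f hB'f rfl h1 hB'0 (fun A'' hA'' => hh A'' (hA''.trans inf_le_left))
      have h4 : A' * B' ≤ A * B := by
        rw [hB', Submodule.mul_sup, sup_le_iff]
        constructor
        · exact Submodule.mul_le.2 fun a ha b hb => Submodule.mul_mem_mul ha.1 hb
        · rw [Submodule.mul_le]
          intro a ha x hx
          rw [mem_map_mulLeft (inv_ne_zero he)] at hx
          rw [inv_inv] at hx
          have hb := (mem_map_mulLeft he B).1 ha.2
          have h5 := Submodule.mul_mem_mul hx hb
          have h6 : e * x * (e⁻¹ * a) = a * x := by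
            field_simp
          rwa [h6] at h5
      have h5 : finrank K (A' * B' : Submodule K L) ≤ finrank K (A * B : Submodule K L) :=
        Submodule.finrank_mono h4
      have h6 : finrank K B' = finrank K (A ⊔ C : Submodule K L) := by
        have h7 : (A ⊔ C : Submodule K L) = B'.map (LinearMap.mulLeft K e) := by
          rw [hB', Submodule.map_sup, ← hC, sup_comm]
          congr 1
          rw [← Submodule.map_comp]
          have h8 : (LinearMap.mulLeft K e) ∘ₗ (LinearMap.mulLeft K e⁻¹) = LinearMap.id := by
            ext x
            simp [he]
          rw [h8, Submodule.map_id]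
        rw [h7, finrank_map_mulLeft he]
      have h7 := Submodule.finrank_sup_add_finrank_inf_eq A C
      have h8 : finrank K C = finrank K B := finrank_map_mulLeft he B
      rw [← hA'] at h7
      omega
    · push Not at hex
      -- all ratios are algebraic
      have hrat : AlgRatios K A := by
        intro a ha b hb
        by_cases hb0 : b = 0
        · rw [hb0, div_zero]
          exact isAlgebraic_zero
        · have hst : ∀ y ∈ B, (a / b) • y ∈ B := by
            intro y hy
            by_cases hy0 : y = 0
            · rw [hy0, smul_zero]
              exact B.zero_mem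
            · have he : b / y ≠ 0 := div_ne_zero hb0 hy0
              have h1 : A ⊓ B.map (LinearMap.mulLeft K (b / y)) ≠ ⊥ := by
                intro h0
                have h2 : b ∈ A ⊓ B.map (LinearMap.mulLeft K (b / y)) := by
                  refine ⟨hb, ?_⟩
                  rw [SetLike.mem_coe, mem_map_mulLeft he]
                  have h3 : (b / y)⁻¹ * b = y := by
                    field_simp
                  rw [h3]
                  exact hy
                rw [h0] at h2
                exact hb0 ((Submodule.mem_bot K).1 h2)
              have h2 := hex (b / y) he h1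
              have h3 : a ∈ A ⊓ B.map (LinearMap.mulLeft K (b / y)) := by
                rw [h2]; exact ha
              have h4 := (mem_map_mulLeft he B).1 h3.2
              have h5 : (b / y)⁻¹ * a = (a / b) • y := by
                rw [smul_eq_mul]
                field_simp
              rwa [h5] at h4
          have hfg : B.FG := (Submodule.fg_iff_finiteDimensional B).2 hB
          exact (isIntegral_of_smul_mem_submodule B hB0 hfg (a / b) hst).isAlgebraic
      have h1 := hh A le_rfl hrat
      obtain ⟨a, ha, ha0⟩ := Submodule.exists_mem_ne_zero_of_ne_bot hA0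
      have h2 : B.map (LinearMap.mulLeft K a) ≤ A * B := by
        rintro _ ⟨b, hb, rfl⟩
        exact Submodule.mul_mem_mul ha hb
      have h3 := Submodule.finrank_mono h2
      rw [finrank_map_mulLeft ha0] at h3
      omega

end T2H06.ZS
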