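import Mathlib

/-!
# Superadditive sequences up to a constant
-/

set_option autoImplicit false

open Filter Topology

namespace T2H06.ZS

theorem iterate {D : ℕ → ℕ} {h : ℕ} (hm : ∀ M N, 2 ≤ N → D M ≤ D (M + N))
    (hD : ∀ M N, 2 ≤ M → 2 ≤ N → D M + D N ≤ D (M + N) + h) {q : ℕ} (hq : 2 ≤ q) (a : ℕ) :
    ∀ r, 2 ≤ r → a * (D q - h) + D r ≤ D (a * q + r) := by
  induction a with
  | zero => intro r _; simp
  | succ a ih =>
    intro r hr
    have h1 := ih (q + r) (by omega)
    have h2 := hD q r hq hr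
    have h3 : (a + 1) * q + r = a * q + (q + r) := by ring
    rw [h3]
    refine le_trans ?_ h1
    have h4 : (a + 1) * (D q - h) + D r = a * (D q - h) + ((D q - h) + D r) := by ring
    rw [h4]
    have h6 := hm r q hq
    rw [add_comm r q] at h6
    omega

/-- `D M + D N ≤ D (M + N) + h` for `M, N ≥ 2` implies the convergence of `D N / N`. -/
theorem limit_exists (D : ℕ → ℕ) (h : ℕ) (hm : ∀ M N, 2 ≤ N → D M ≤ D (M + N))
    (hD : ∀ M N, 2 ≤ M → 2 ≤ N → D M + D N ≤ D (M + N) + h) :
    Tendsto (fun N : ℕ => (D N : ENNReal) / N) atTop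
      (𝓝 (⨆ q : {q : ℕ // 2 ≤ q}, ((D q - h : ℕ) : ENNReal) / (q : ℕ))) := by
  set L : ENNReal := ⨆ q : {q : ℕ // 2 ≤ q}, ((D q - h : ℕ) : ENNReal) / (q : ℕ) with hL
  rw [tendsto_order]
  constructor
  · intro b hb
    rw [hL, lt_iSup_iff] at hb
    obtain ⟨⟨q, hq⟩, hbq⟩ := hb
    simp only at hbq
    set c := D q - h with hc
    have hq0 : (0 : ℝ) < q := by exact_mod_cast (by omega : 0 < q)
    have hbtop : b ≠ ⊤ := ne_top_of_lt hbq
    obtain ⟨b', rfl⟩ : ∃ b' : NNReal, b = b' := ⟨b.toNNReal, (ENNReal.coe_toNNReal hbtop).symm⟩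
    have hbr : (b' : ℝ) * q < c := by
      have h1 : (b' : ENNReal) * (q : ENNReal) < (c : ENNReal) := by
        rwa [ENNReal.lt_div_iff_mul_lt (Or.inl (by exact_mod_cast (by omega : q ≠ 0)))
          (Or.inl (ENNReal.natCast_ne_top q))] at hbq
      have h2 : ((b' * q : NNReal) : ENNReal) < ((c : NNReal) : ENNReal) := by
        push_cast
        exact h1
      have h3 := ENNReal.coe_lt_coe.1 h2
      exact_mod_cast h3
    -- eventually
    have hev : ∀ᶠ N : ℕ in atTop, ((q : ℝ) + 1) * c < (N : ℝ) * (c - b' * q) := by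
      have hpos : 0 < (c : ℝ) - b' * q := by linarith
      have := (tendsto_natCast_atTop_atTop (R := ℝ)).atTop_mul_const hpos
      exact this.eventually_gt_atTop _
    filter_upwards [hev, eventually_ge_atTop (q + 2)] with N hN hN2
    have hN0 : (0 : ℝ) < N := by exact_mod_cast (by omega : 0 < N)
    rw [ENNReal.lt_div_iff_mul_lt (Or.inl (by exact_mod_cast (by omega : N ≠ 0)))
          (Or.inl (ENNReal.natCast_ne_top N))]
    have hgoal : (b' : ℝ) * N < D N := by
      set a := (N - 2) / q with ha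
      have h1 : a * q + (N - a * q) = N := by
        have : a * q ≤ N - 2 := Nat.div_mul_le_self _ _
        omega
      have h2 : 2 ≤ N - a * q := by
        have : a * q ≤ N - 2 := Nat.div_mul_le_self _ _
        omega
      have h3 := iterate hm hD hq a (N - a * q) h2
      rw [h1] at h3
      have h4 : a * c ≤ D N := le_trans (Nat.le_add_right _ _) h3
      have h5 : N - 2 < (a + 1) * q := by
        have := Nat.lt_div_mul_add (a := N - 2) (b := q) (by omega)
        rw [← ha] at this
        nlinarith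
      have h6 : (N : ℝ) < (a + 1) * q + 2 := by
        have : N < (a + 1) * q + 2 := by omega
        exact_mod_cast this
      have h6' : (N : ℝ) ≤ (a + 1) * q + 1 := by
        have : N ≤ (a + 1) * q + 1 := by omega
        exact_mod_cast this
      have h7 : ((a * c : ℕ) : ℝ) ≤ D N := by exact_mod_cast h4
      push_cast at h7
      have hc0 : (0 : ℝ) ≤ c := by positivity
      have h8 : (b' : ℝ) * N * q < (a : ℝ) * c * q := by
        have h9 : ((N : ℝ) - q - 1) * c ≤ a * q * c := by
          apply mul_le_mul_of_nonneg_right _ hc0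
          linarith
        nlinarith
      have h10 : (b' : ℝ) * N < (a : ℝ) * c := lt_of_mul_lt_mul_right h8 hq0.le
      linarith
    have h2 : ((b' * N : NNReal) : ENNReal) < ((D N : NNReal) : ENNReal) := by
      rw [ENNReal.coe_lt_coe]
      exact_mod_cast hgoal
    push_cast at h2
    exact h2
  · intro b hb
    have h1 : Tendsto (fun N : ℕ => L + (h : ENNReal) / N) atTop (𝓝 (L + 0)) := by
      refine Tendsto.add tendsto_const_nhds ?_
      exact ENNReal.Tendsto.const_div ENNReal.tendsto_nat_nhds_top (Or.inr (ENNReal.natCast_ne_top h)) |>.trans (by simp)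
    rw [add_zero] at h1
    have h2 := (tendsto_order.1 h1).2 b hb
    filter_upwards [h2, eventually_ge_atTop 2] with N hN hN2
    refine lt_of_le_of_lt ?_ hN
    have h3 : ((D N - h : ℕ) : ENNReal) / (N : ℕ) ≤ L := by
      rw [hL]
      exact le_iSup (fun q : {q : ℕ // 2 ≤ q} => ((D q - h : ℕ) : ENNReal) / ((q : ℕ) : ENNReal)) ⟨N, hN2⟩
    have h4 : (D N : ENNReal) ≤ ((D N - h : ℕ) : ENNReal) + h := by
      exact_mod_cast (by omega : D N ≤ D N - h + h)
    calc (D N : ENNReal) / N ≤ (((D N - h : ℕ) : ENNReal) + h) / N := by gcongr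
      _ = ((D N - h : ℕ) : ENNReal) / N + h / N := ENNReal.add_div
      _ ≤ L + h / N := by gcongr

end T2H06.ZS
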