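import Pool.Agent.T2H06.ZS.Cd
import Pool.Agent.T2H06.ZS.Lim
import Pool.Agent.T2H35.MZ.Field

/-!
# Superadditivity of the dimensions of the spaces of multiple zeta values
-/

set_option autoImplicit false

open Module Filter Topology

namespace T2H06.ZS

open Pool.Agent.H447R2.MZ hiding Direct Zs_one pi_pow_mem
open Pool.Agent.Y129.MZ Pool.Agent.Y123.MZ
open Pool.Agent.T2H35.MZ

theorem prod_le (M N : ℕ) : Zs M * Zs N ≤ Zs (M + N) :=
  Submodule.mul_le.2 fun x hx y hy => mul_mem M N x y hx hy

theorem D_pos' {N : ℕ} (h : N ≠ 1) : 0 < D N := by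
  rcases Nat.eq_zero_or_pos N with rfl | h1
  · exact D_zero_pos
  · exact D_pos (by omega)

theorem ne_bot {N : ℕ} (h : N ≠ 1) : Zs N ≠ ⊥ := by
  intro h0
  have h1 := D_pos' h
  rw [D, h0, finrank_bot] at h1
  exact lt_irrefl _ h1

theorem super {M N h : ℕ} (hM : M ≠ 1) (hN : N ≠ 1)
    (hh : ∀ A ≤ Zs M, AlgRatios ℚ A → finrank ℚ A ≤ h) : D M + D N ≤ D (M + N) + h := by
  have h1 := cauchy h _ (Zs M) (Zs N) inferInstance inferInstance rfl (ne_bot hM) (ne_bot hN) hh
  have h2 : finrank ℚ (Zs M * Zs N : Submodule ℚ ℝ) ≤ D (M + N) := Submodule.finrank_mono (prod_le M N)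
  unfold D at *
  omega

theorem bound_of_algebraic [FiniteDimensional ℚ (algebraicClosure ℚ ratioField)] {M : ℕ}
    {A : Submodule ℚ ℝ} (hA : A ≤ Zs M) (hr : AlgRatios ℚ A) :
    finrank ℚ A ≤ finrank ℚ (algebraicClosure ℚ ratioField) := by
  by_cases hA0 : A = ⊥
  · rw [hA0, finrank_bot]
    exact Nat.zero_le _
  · obtain ⟨y, hy, hy0⟩ := Submodule.exists_mem_ne_zero_of_ne_bot hA0
    have halg : ∀ x ∈ A, ∃ hx : x / y ∈ ratioField,
        (⟨x / y, hx⟩ : ratioField) ∈ algebraicClosure ℚ ratioField := by
      intro x hx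
      have h1 : x / y ∈ ratioField := div_mem_ratio (hA hx) (hA hy)
      refine ⟨h1, ?_⟩
      rw [mem_algebraicClosure_iff]
      have h2 := hr x hx y hy
      have h3 : algebraMap ratioField ℝ ⟨x / y, h1⟩ = x / y := rfl
      rw [← h3] at h2
      exact (isAlgebraic_algebraMap_iff (algebraMap ratioField ℝ).injective).1 h2
    let f : A →ₗ[ℚ] algebraicClosure ℚ ratioField :=
      { toFun := fun x => ⟨⟨(x : ℝ) / y, (halg x x.2).1⟩, (halg x x.2).2⟩
        map_add' := fun a b => by
          apply Subtype.ext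
          apply Subtype.ext
          change ((a : ℝ) + b) / y = (a : ℝ) / y + (b : ℝ) / y
          ring
        map_smul' := fun c a => by
          apply Subtype.ext
          apply Subtype.ext
          have h1 : ((c • a : A) : ℝ) = (c : ℝ) * a := by
            rw [Submodule.coe_smul, Rat.smul_def]
          have h2 : (((c • (⟨⟨(a : ℝ) / y, (halg a a.2).1⟩, (halg a a.2).2⟩ :
              algebraicClosure ℚ ratioField) : algebraicClosure ℚ ratioField) : ratioField) : ℝ) =
              (c : ℝ) * ((a : ℝ) / y) := by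
            rw [Rat.smul_def]
            push_cast
            rfl
          change ((c • a : A) : ℝ) / y = _
          rw [h1]
          refine Eq.trans ?_ h2.symm
          ring }
    refine LinearMap.finrank_le_finrank_of_injective (f := f) ?_
    intro a b hab
    apply Subtype.ext
    have h1 : (a : ℝ) / y = (b : ℝ) / y := congrArg (fun z : algebraicClosure ℚ ratioField => ((z : ratioField) : ℝ)) hab
    exact (div_left_inj' hy0).1 h1

theorem super' [FiniteDimensional ℚ (algebraicClosure ℚ ratioField)] {M N : ℕ} (hM : M ≠ 1)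
    (hN : N ≠ 1) : D M + D N ≤ D (M + N) + finrank ℚ (algebraicClosure ℚ ratioField) :=
  super hM hN fun _ hA hr => bound_of_algebraic hA hr

theorem limit [FiniteDimensional ℚ (algebraicClosure ℚ ratioField)] :
    ∃ L : ENNReal, Tendsto (fun N : ℕ => (D N : ENNReal) / N) atTop (𝓝 L) ∧
      (L = 0 ↔ FiniteDimensional ℚ ratioField) := by
  set h := finrank ℚ (algebraicClosure ℚ ratioField) with hh
  have hlim := limit_exists D h (fun M N hN => D_mono hN)
    (fun M N hM hN => super' (by omega) (by omega))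
  refine ⟨_, hlim, ?_⟩
  constructor
  · intro h0
    rw [ENNReal.iSup_eq_zero] at h0
    have h1 : ∀ q, 2 ≤ q → D q ≤ h := by
      intro q hq
      have h2 := h0 ⟨q, hq⟩
      simp only [ENNReal.div_eq_zero_iff, Nat.cast_eq_zero, ENNReal.natCast_ne_top, or_false] at h2
      omega
    by_contra hinf
    have h3 : ((h + 1 : ℕ) : Cardinal) ≤ Module.rank ℚ ratioField := by
      by_contra hlt
      rw [not_le] at hlt
      apply hinf
      have h4 : Module.rank ℚ ratioField < Cardinal.aleph0 := hlt.trans (Cardinal.natCast_lt_aleph0)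
      exact Module.rank_lt_aleph0_iff.1 h4
    obtain ⟨N, hN⟩ := ((exists_D_ge h3).and (eventually_ge_atTop 2)).exists
    have := h1 N hN.2
    have := hN.1
    omega
  · intro hfin
    have h1 : ∀ N, D N ≤ finrank ℚ ratioField := by
      intro N
      have h2 := D_le_rank N
      rw [← finrank_eq_rank] at h2
      exact_mod_cast h2
    have h2 : Tendsto (fun N : ℕ => (D N : ENNReal) / N) atTop (𝓝 0) := by
      refine tendsto_of_tendsto_of_tendsto_of_le_of_le tendsto_const_nhds
        (h := fun N : ℕ => ((finrank ℚ ratioField : ℕ) : ENNReal) / N) ?_ (fun _ => zero_le) ?_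
      · exact ENNReal.Tendsto.const_div ENNReal.tendsto_nat_nhds_top
          (Or.inr (ENNReal.natCast_ne_top _)) |>.trans (by simp)
      · intro N
        have h3 : (D N : ENNReal) ≤ ((finrank ℚ ratioField : ℕ) : ENNReal) := by
          exact_mod_cast h1 N
        change (D N : ENNReal) / N ≤ ((finrank ℚ ratioField : ℕ) : ENNReal) / N
        gcongr
    exact tendsto_nhds_unique hlim h2

end T2H06.ZS
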